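import Pool.Agent.R566.WPL.Opt

/-!
# WPL trees are not `O(1)`-static-competitive

A zigzag path on which the keys are accessed in the order from the root to the last node, again
and again, is never changed by the WPL tree algorithm, although every round costs `n (n + 1) / 2`.
The zigzag path can be forced from every initial tree.
-/

set_option autoImplicit false

namespace Pool.Agent.Results.MP_037a8f_lc.NotStaticCompetitive

open Pool.Agent.R566.WPL Pool.Agent.R566.WPL.BST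

/-- **The WPL tree algorithm is not `O(1)`-static-competitive.**  (1) For every `n ≥ 1`, every
initial tree `T₀` on the keys `1, …, n`, every `c < (n + 1) / (2 (⌊log₂ n⌋ + 1))` and every `a` there
is an access sequence `σ` with `cost(T₀, σ) > c · OPT_st(σ) + a`.  (2) Hence there is no absolute
constant `c` such that for all `n` and `T₀` the cost is at most `c · OPT_st(σ) + a` for some `a` and
all `σ`. -/
theorem result :
    (∀ n : ℕ, 1 ≤ n → ∀ T₀ : BST, On n T₀ → ∀ c a : ℝ,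
      c < ((n : ℝ) + 1) / (2 * ((Nat.log 2 n : ℕ) + 1 : ℝ)) →
      ∃ σ : List ℕ, (∀ x ∈ σ, 1 ≤ x ∧ x ≤ n) ∧
        c * (optStatic n σ : ℝ) + a < (wplCost T₀ σ : ℝ)) ∧
    ¬ (∃ c : ℝ, ∀ n : ℕ, 1 ≤ n → ∀ T₀ : BST, On n T₀ → ∃ a : ℝ, ∀ σ : List ℕ,
      (∀ x ∈ σ, 1 ≤ x ∧ x ≤ n) → (wplCost T₀ σ : ℝ) ≤ c * (optStatic n σ : ℝ) + a) := by
  have h1 : ∀ n : ℕ, 1 ≤ n → ∀ T₀ : BST, On n T₀ → ∀ c a : ℝ,
      c < ((n : ℝ) + 1) / (2 * ((Nat.log 2 n : ℕ) + 1 : ℝ)) →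
      ∃ σ : List ℕ, (∀ x ∈ σ, 1 ≤ x ∧ x ≤ n) ∧
        c * (optStatic n σ : ℝ) + a < (wplCost T₀ σ : ℝ) := by
    intro n hn T₀ hT₀ c a hc
    refine exceeds hn hT₀ (optStatic n) ⟨0, fun σ hσ => ?_⟩ c a hc
    rw [Nat.zero_add]
    exact optStatic_le hσ
  refine ⟨h1, ?_⟩
  rintro ⟨c, hc⟩
  obtain ⟨k, hk⟩ := exists_lt_ratio c
  obtain ⟨a, ha⟩ := hc (2 ^ k) Nat.one_le_two_pow (balTree (2 ^ k)) (on_balTree _)
  obtain ⟨σ, hσ, h2⟩ := h1 (2 ^ k) Nat.one_le_two_pow (balTree (2 ^ k)) (on_balTree _) c a hk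
  exact absurd (ha σ hσ) (not_le.2 h2)

end Pool.Agent.Results.MP_037a8f_lc.NotStaticCompetitive
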